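import Pool.Agent.EDX.Stmts3

/-!
Row HAD of squad EDX: Hadamard's inequality for the columns of a complex matrix (helper94).
-/

set_option autoImplicit false

namespace Pool.Agent.EDX.H94

open InnerProductSpace Module

theorem had_fin (n : ℕ) (M : Matrix (Fin n) (Fin n) ℂ) :
    ‖M.det‖ ^ 2 ≤ ∏ j, ∑ i, ‖M i j‖ ^ 2 := by
  let f : Fin n → EuclideanSpace ℂ (Fin n) := fun j => WithLp.toLp 2 (fun i => M i j)
  have hfin : finrank ℂ (EuclideanSpace ℂ (Fin n)) = Fintype.card (Fin n) := by simp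
  let b : OrthonormalBasis (Fin n) ℂ (EuclideanSpace ℂ (Fin n)) :=
    gramSchmidtOrthonormalBasis hfin f
  let e : OrthonormalBasis (Fin n) ℂ (EuclideanSpace ℂ (Fin n)) := EuclideanSpace.basisFun (Fin n) ℂ
  have hM : e.toBasis.toMatrix f = M := by
    ext i j
    rw [Basis.toMatrix_apply, OrthonormalBasis.coe_toBasis_repr_apply,
      EuclideanSpace.basisFun_repr]
  have h1 : M.det = e.toBasis.det f := by
    rw [Basis.det_apply, hM]
  have h2 : e.toBasis.det f = e.toBasis.det b * b.toBasis.det f := by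
    rw [Basis.det_apply, Basis.det_apply, Basis.det_apply, ← Matrix.det_mul]
    have h3 := Basis.toMatrix_mul_toMatrix (b := e.toBasis) (b' := b.toBasis) (b'' := f)
    rw [OrthonormalBasis.coe_toBasis] at h3
    rw [h3]
  have h3 : ‖e.toBasis.det b‖ = 1 := e.det_to_matrix_orthonormalBasis b
  have h4 : b.toBasis.det f = ∏ i, inner ℂ (b i) (f i) := gramSchmidtOrthonormalBasis_det hfin f
  have h5 : ∀ j, ‖f j‖ ^ 2 = ∑ i, ‖M i j‖ ^ 2 := by
    intro j
    rw [EuclideanSpace.norm_sq_eq]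
  rw [h1, h2, norm_mul, h3, one_mul, h4, norm_prod, ← Finset.prod_pow]
  refine Finset.prod_le_prod (fun i _ => by positivity) fun i _ => ?_
  rw [← h5 i]
  have h6 : ‖inner ℂ (b i) (f i)‖ ≤ ‖b i‖ * ‖f i‖ := norm_inner_le_norm _ _
  rw [b.orthonormal.1 i, one_mul] at h6
  gcongr

theorem had : HadStmt := by
  intro ι _ _ M
  have h := had_fin (Fintype.card ι)
    (M.submatrix (Fintype.equivFin ι).symm (Fintype.equivFin ι).symm)
  rw [Matrix.det_submatrix_equiv_self] at h
  refine h.trans (le_of_eq ?_)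
  rw [← Equiv.prod_comp (Fintype.equivFin ι)]
  refine Finset.prod_congr rfl fun j _ => ?_
  rw [← Equiv.sum_comp (Fintype.equivFin ι)]
  refine Finset.sum_congr rfl fun i _ => ?_
  simp

end Pool.Agent.EDX.H94
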